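import Pool.Agent.U86.MI.Chain

/-!
# Maximal ideals on `ℕ` as unions of strictly increasing chains of ideals

In ZFC there is a strictly increasing `ω₁`-sequence of ideals on `ℕ` whose union is a maximal ideal.
More precisely, for a limit ordinal `γ` there is a strictly increasing `γ`-sequence of ideals on `ℕ`
whose union is a maximal ideal if and only if `γ` has uncountable cofinality and cardinality at most
`2 ^ ℵ₀`.

Idea of the construction. Let `A α` (`α < γ`) be an independent family of subsets of `ℕ` and let `K`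
be a maximal filter all of whose members meet all finite Boolean combinations of the `A α`. Every
set `X` is decided, modulo `K`, by a predense set of these combinations; as they are nonempty subsets
of `ℕ`, a countable family of pairwise disjoint ones suffices, so `X` has a support bounded in `γ`.
For *every* ultrafilter `U` containing `K` let `F α` be the filter generated by `K` and the members of
`U` with support below `α`. Neither `A α` nor its complement belongs to `F α`, and both the union of
the `F α` and `U` agree.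
-/

set_option autoImplicit false

namespace Pool.Agent.Results.MP_ea2126_lc.ChainLengths

open Cardinal Ordinal Set Pool.Agent.U86.MI

/-- Sufficiency. -/
theorem hasChain_of (γ : Ordinal.{0}) (h1 : ℵ₀ < γ.cof) (h2 : γ.card ≤ 𝔠) : HasChain γ := by
  classical
  obtain ⟨r⟩ : Nonempty (γ.ToType ↪ ℝ) := by
    rw [← Cardinal.le_def, Cardinal.mk_real, Cardinal.mk_toType]
    exact h2
  have hb : ∀ S : Set γ.ToType, S.Countable → ∃ b, ∀ s ∈ S, s < b := by
    intro S hS
    by_contra hcon
    push Not at hcon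
    have hcof : IsCofinal S := fun b => by
      obtain ⟨s, hs, hbs⟩ := hcon b
      exact ⟨s, hs, hbs⟩
    have h3 := Order.cof_le hcof
    rw [Ordinal.cof_toType] at h3
    exact absurd (h1.trans_le h3) (not_lt.2 (Cardinal.le_aleph0_iff_set_countable.2 hS))
  obtain ⟨J, hJ1, hJ2, hJ3⟩ := exists_chain r r.injective hb
  refine ⟨fun α => if h : α < γ then J (Ordinal.ToType.mk ⟨α, h⟩) else ∅, ?_, ?_, ?_⟩
  · intro α hα
    simp only [dif_pos hα]
    exact hJ1 _
  · intro α β hαβ hβ
    simp only [dif_pos hβ, dif_pos (hαβ.trans hβ)]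
    refine hJ2 _ _ ?_
    rw [OrderIso.lt_iff_lt]
    exact hαβ
  · have : {X | ∃ α, ∃ _ : α < γ, X ∈ if h : α < γ then J (Ordinal.ToType.mk ⟨α, h⟩) else ∅} =
        {X | ∃ i, X ∈ J i} := by
      ext X
      constructor
      · rintro ⟨α, hα, hX⟩
        rw [dif_pos hα] at hX
        exact ⟨_, hX⟩
      · rintro ⟨i, hX⟩
        obtain ⟨⟨α, hα⟩, rfl⟩ := Ordinal.ToType.mk.surjective i
        refine ⟨α, hα, ?_⟩
        rw [dif_pos (show α < γ from hα)]
        exact hX
    simp only [exists_prop] at this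
    rw [this]
    exact hJ3

/-- A maximal ideal is not the union of a strictly increasing sequence of ideals of countable
cofinality. -/
theorem not_countable {J : ℕ → Set (Set ℕ)} (h1 : ∀ n, IsIdeal (J n)) (h2 : ∀ n, J n ⊂ J (n + 1))
    (h3 : IsMaximalIdeal {X | ∃ n, X ∈ J n}) : False := by
  classical
  have hmono : ∀ m n, m ≤ n → J m ⊆ J n := fun m n hmn =>
    monotone_nat_of_le_succ (f := J) (fun n => (h2 n).1) hmn
  have hex : ∀ n, ∃ X, X ∈ J (n + 1) ∧ X ∉ J n := fun n => Set.exists_of_ssubset (h2 n)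
  choose A hA1 hA2 using hex
  -- the unions
  let B : ℕ → Set ℕ := fun n => ⋃ i ∈ Finset.range (n + 1), A i
  have hB1 : ∀ n, B n ∈ J (n + 1) := by
    intro n
    induction n with
    | zero =>
      have : B 0 = A 0 := by simp [B]
      rw [this]
      exact hA1 0
    | succ n ih =>
      have : B (n + 1) = B n ∪ A (n + 1) := by
        ext x
        simp only [B, Finset.mem_range, mem_iUnion, mem_union, exists_prop]
        constructor
        · rintro ⟨i, hi, hx⟩
          by_cases h : i < n + 1
          · exact Or.inl ⟨i, h, hx⟩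
          · have : i = n + 1 := by omega
            subst this
            exact Or.inr hx
        · rintro (⟨i, hi, hx⟩ | hx)
          · exact ⟨i, by omega, hx⟩
          · exact ⟨n + 1, by omega, hx⟩
      rw [this]
      exact (h1 _).union_mem _ (hmono _ _ (by omega) ih) _ (hA1 (n + 1))
  have hB2 : ∀ n, B n ∉ J n := by
    intro n h
    refine hA2 n ((h1 n).subset_mem _ h _ ?_)
    intro x hx
    exact mem_biUnion (by simp) hx
  have hBm : ∀ m n, m ≤ n → B m ⊆ B n := by
    intro m n hmn x hx
    simp only [B, Finset.mem_range, mem_iUnion, exists_prop] at hx ⊢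
    obtain ⟨i, hi, hx⟩ := hx
    exact ⟨i, by omega, hx⟩
  let D : ℕ → Set ℕ := fun n => B (n + 1) \ B n
  have hD : ∀ n, D n ∉ J (n + 1) := by
    intro n h
    refine hB2 (n + 1) ((h1 _).subset_mem _ ((h1 _).union_mem _ h _ (hB1 n)) _ ?_)
    intro x hx
    by_cases hx' : x ∈ B n
    · exact Or.inr hx'
    · exact Or.inl ⟨hx, hx'⟩
  have hdisj : ∀ m n, m < n → Disjoint (D m) (D n) := by
    intro m n hmn
    rw [Set.disjoint_left]
    rintro x ⟨hx1, -⟩ ⟨-, hx2⟩
    exact hx2 (hBm _ _ hmn hx1)
  -- the even and the odd pieces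
  have key : ∀ e : ℕ, (⋃ n, D (2 * n + e)) ∉ {X | ∃ n, X ∈ J n} := by
    rintro e ⟨n, hn⟩
    refine hD (2 * n + e) (hmono n _ (by omega) ((h1 n).subset_mem _ hn _ ?_))
    exact subset_iUnion (fun n => D (2 * n + e)) n
  have hcomp : (⋃ n, D (2 * n + 1)) ⊆ (⋃ n, D (2 * n + 0))ᶜ := by
    intro x hx hx'
    obtain ⟨m, hm⟩ := mem_iUnion.1 hx
    obtain ⟨k, hk⟩ := mem_iUnion.1 hx'
    rcases lt_trichotomy (2 * m + 1) (2 * k + 0) with h | h | h
    · exact Set.disjoint_left.1 (hdisj _ _ h) hm hk
    · omega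
    · exact Set.disjoint_left.1 (hdisj _ _ h) hk hm
  -- maximality: the ideal generated by the union and the even pieces
  set I : Set (Set ℕ) := {X | ∃ n, X ∈ J n} with hI
  set E : Set ℕ := ⋃ n, D (2 * n + 0) with hE
  have hIE : E ∉ I := key 0
  have hIO : (⋃ n, D (2 * n + 1)) ∉ I := key 1
  have hEc : Eᶜ ∉ I := fun h => hIO (h3.1.subset_mem _ h _ hcomp)
  refine h3.2 {X | ∃ Y ∈ I, X ⊆ Y ∪ E} ?_ ⟨?_, ?_⟩
  · refine ⟨⟨∅, h3.1.empty_mem, by simp⟩, ?_, ?_, ?_⟩
    · rintro ⟨Y, hY, hYE⟩
      refine hEc (h3.1.subset_mem _ hY _ ?_)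
      intro x hx
      rcases hYE (mem_univ x) with h | h
      · exact h
      · exact absurd h hx
    · rintro X ⟨Y, hY, hXY⟩ X' ⟨Y', hY', hXY'⟩
      refine ⟨Y ∪ Y', h3.1.union_mem _ hY _ hY', ?_⟩
      rintro x (hx | hx)
      · rcases hXY hx with h | h
        · exact Or.inl (Or.inl h)
        · exact Or.inr h
      · rcases hXY' hx with h | h
        · exact Or.inl (Or.inr h)
        · exact Or.inr h
    · rintro X ⟨Y, hY, hXY⟩ X' hX'
      exact ⟨Y, hY, hX'.trans hXY⟩
  · intro X hX
    exact ⟨X, hX, subset_union_left⟩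
  · intro h
    exact hIE (h ⟨∅, h3.1.empty_mem, subset_union_right⟩)

/-- Necessity. -/
theorem of_hasChain (γ : Ordinal.{0}) (hγ : Order.IsSuccLimit γ) (h : HasChain γ) :
    ℵ₀ < γ.cof ∧ γ.card ≤ 𝔠 := by
  classical
  obtain ⟨J, hJ1, hJ2, hJ3⟩ := h
  refine ⟨?_, ?_⟩
  · by_contra hcon
    rw [not_lt] at hcon
    -- a countable cofinal set
    obtain ⟨S, hS, hSc⟩ := Order.exists_cof_eq γ.ToType
    rw [Ordinal.cof_toType] at hSc
    have hSc' : S.Countable := by
      rw [← Cardinal.le_aleph0_iff_set_countable, hSc]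
      exact hcon
    have hγ0 : γ ≠ 0 := hγ.ne_bot
    have hne : Nonempty γ.ToType := Ordinal.nonempty_toType_iff.2 hγ0
    have hSne : S.Nonempty := by
      obtain ⟨s, hs, -⟩ := hS (Classical.arbitrary _)
      exact ⟨s, hs⟩
    obtain ⟨f, hf⟩ := hSc'.exists_eq_range hSne
    let g : ℕ → Ordinal.{0} := fun n => (Ordinal.ToType.mk.symm (f n)).1
    have hg : ∀ n, g n < γ := fun n => (Ordinal.ToType.mk.symm (f n)).2
    have hg2 : ∀ α < γ, ∃ n, α ≤ g n := by
      intro α hα
      obtain ⟨s, hs, hαs⟩ := hS (Ordinal.ToType.mk ⟨α, hα⟩)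
      rw [hf] at hs
      obtain ⟨n, rfl⟩ := hs
      refine ⟨n, ?_⟩
      exact (OrderIso.le_symm_apply (Ordinal.ToType.mk (o := γ))).2 hαs
    -- a strictly increasing cofinal sequence
    let u : ℕ → Ordinal.{0} := fun n => Nat.rec (g 0) (fun k x => max (g (k + 1)) (x + 1)) n
    have hu0 : u 0 = g 0 := rfl
    have hu : ∀ n, u (n + 1) = max (g (n + 1)) (u n + 1) := fun n => rfl
    have huγ : ∀ n, u n < γ := by
      intro n
      induction n with
      | zero => exact hg 0
      | succ n ih =>
        rw [hu]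
        exact max_lt (hg _) (hγ.add_one_lt ih)
    have hug : ∀ n, g n ≤ u n := by
      intro n
      cases n with
      | zero => exact le_rfl
      | succ n => rw [hu]; exact le_max_left _ _
    have hus : ∀ n, u n < u (n + 1) := by
      intro n
      rw [hu]
      exact (Order.lt_add_one_iff.2 le_rfl).trans_le (le_max_right _ _)
    refine not_countable (J := fun n => J (u n)) (fun n => hJ1 _ (huγ n))
      (fun n => hJ2 _ _ (hus n) (huγ (n + 1))) ?_
    have : {X | ∃ n, X ∈ J (u n)} = {X | ∃ α < γ, X ∈ J α} := by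
      ext X
      constructor
      · rintro ⟨n, hn⟩
        exact ⟨u n, huγ n, hn⟩
      · rintro ⟨α, hα, hX⟩
        obtain ⟨n, hn⟩ := hg2 α hα
        refine ⟨n, ?_⟩
        rcases (hn.trans (hug n)).lt_or_eq with h | h
        · exact (hJ2 _ _ h (huγ n)).1 hX
        · rw [← h]
          exact hX
    rw [this]
    exact hJ3
  · -- the members of the differences are distinct
    have hex : ∀ i : γ.ToType, ∃ X : Set ℕ,
        X ∈ J ((Ordinal.ToType.mk.symm i).1 + 1) ∧ X ∉ J (Ordinal.ToType.mk.symm i).1 := by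
      intro i
      have h1 : (Ordinal.ToType.mk.symm i).1 + 1 < γ := hγ.add_one_lt (Ordinal.ToType.mk.symm i).2
      exact Set.exists_of_ssubset (hJ2 _ _ (Order.lt_add_one_iff.2 le_rfl) h1)
    choose X hX1 hX2 using hex
    have hinj : Function.Injective X := by
      have hlt : ∀ i j : γ.ToType, i < j → X i ≠ X j := by
        intro i j hij heq
        have h1 : (Ordinal.ToType.mk.symm i).1 < (Ordinal.ToType.mk.symm j).1 := by
          have := (OrderIso.lt_iff_lt (Ordinal.ToType.mk (o := γ)).symm).2 hij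
          exact this
        have h2 : (Ordinal.ToType.mk.symm i).1 + 1 ≤ (Ordinal.ToType.mk.symm j).1 :=
          Order.add_one_le_iff.2 h1
        apply hX2 j
        rw [← heq]
        rcases h2.lt_or_eq with h | h
        · exact (hJ2 _ _ h (Ordinal.ToType.mk.symm j).2).1 (hX1 i)
        · rw [← h]
          exact hX1 i
      intro i j hij
      rcases lt_trichotomy i j with h | h | h
      · exact absurd hij (hlt i j h)
      · exact h
      · exact absurd hij.symm (hlt j i h)
    have h1 : #γ.ToType ≤ #(Set ℕ) := Cardinal.mk_le_of_injective hinj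
    rw [Cardinal.mk_toType, Cardinal.mk_set, Cardinal.mk_nat, Cardinal.two_power_aleph0] at h1
    exact h1

/-- **Theorem.** There is a strictly increasing `ω₁`-sequence of ideals on `ℕ` whose union is a
maximal ideal on `ℕ`. For every limit ordinal `γ`, such a sequence of length `γ` exists if and only if
`γ` has uncountable cofinality and cardinality at most `2 ^ ℵ₀`. -/
theorem result :
    HasChain (ω_ 1) ∧
    ∀ γ : Ordinal.{0}, Order.IsSuccLimit γ → (HasChain γ ↔ ℵ₀ < γ.cof ∧ γ.card ≤ 𝔠) := by
  refine ⟨hasChain_of _ ?_ ?_, fun γ hγ => ⟨of_hasChain γ hγ, fun h => hasChain_of γ h.1 h.2⟩⟩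
  · rw [← Cardinal.ord_aleph, Cardinal.isRegular_aleph_one.cof_ord]
    exact Cardinal.aleph0_lt_aleph_one
  · rw [Ordinal.card_omega]
    exact Cardinal.aleph_one_le_continuum

end Pool.Agent.Results.MP_ea2126_lc.ChainLengths
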